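import Pool.Agent.Helper470.DimT.Asm

set_option autoImplicit false

/-! The two conditions: an abelian heap of exponent `n`, and a constant term. -/

namespace Pool.Agent.Y806.DM

open Pool.Agent.Helper470.DimT

/-- Signature with one ternary symbol. -/
def hSig : Sig := ⟨Fin 1, fun _ => 3⟩

def hP {V : Type} (x y z : Term hSig V) : Term hSig V :=
  .op (0 : Fin 1) (fun i : Fin 3 => if i = 0 then x else if i = 1 then y else z)

def hPow : ℕ → Term hSig ℕ
  | 0 => .var 1
  | n + 1 => hP (.var 0) (.var 1) (hPow n)

/-- The identities of abelian heaps of exponent dividing `n`. -/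
def hIds (n : ℕ) : List (Term hSig ℕ × Term hSig ℕ) :=
  [(hP (.var 0) (.var 1) (.var 1), .var 0),
    (hP (.var 0) (.var 0) (.var 1), .var 1),
    (hP (.var 0) (.var 1) (.var 2), hP (.var 2) (.var 1) (.var 0)),
    (hP (hP (.var 0) (.var 1) (.var 2)) (.var 3) (.var 4),
      hP (.var 0) (.var 1) (hP (.var 2) (.var 3) (.var 4))),
    (hPow n, .var 1)]

/-- Abelian heaps of exponent dividing `n`. -/
def heap (n : ℕ) : Cond where
  k := 1
  ar := fun _ => 3
  ids := hIds n

section
variable {G : Type} (s : Str hSig G)

def sP (a b c : G) : G :=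
  s (0 : Fin 1) (fun i : Fin 3 => if i = 0 then a else if i = 1 then b else c)

theorem eval_hP {V : Type} (v : V → G) (x y z : Term hSig V) :
    (hP x y z).eval s v = sP s (x.eval s v) (y.eval s v) (z.eval s v) := by
  show s (0 : Fin 1) (fun i : Fin 3 => Term.eval s v (if i = 0 then x else if i = 1 then y else z))
    = _
  unfold sP
  congr 1
  funext i
  split_ifs <;> rfl

theorem s_eq (a : Fin 3 → G) : s (0 : Fin 1) a = sP s (a 0) (a 1) (a 2) := by
  unfold sP
  congr 1
  funext i
  change a (i : Fin 3) = if (i : Fin 3) = 0 then a 0 else if (i : Fin 3) = 1 then a 1 else a 2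
  revert i
  intro i
  change Fin 3 at i
  fin_cases i <;> rfl

variable {s}

theorem eval_hPow (n : ℕ) (v : ℕ → G) :
    (hPow n).eval s v = (fun w => sP s (v 0) (v 1) w)^[n] (v 1) := by
  induction n with
  | zero => rfl
  | succ n ih =>
    rw [Function.iterate_succ_apply', ← ih]
    simp [hPow, eval_hP, Term.eval]

theorem heap_iff {n : ℕ} : (heap n).th.Models s ↔
    (∀ x y, sP s x y y = x) ∧ (∀ x y, sP s x x y = y) ∧
    (∀ x y z, sP s x y z = sP s z y x) ∧
    (∀ x y z u w, sP s (sP s x y z) u w = sP s x y (sP s z u w)) ∧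
    (∀ x y, (fun w => sP s x y w)^[n] y = y) := by
  have hmem : ∀ e : Term hSig ℕ × Term hSig ℕ, e ∈ (heap n).th.ids ↔ e ∈ hIds n :=
    fun e => Iff.rfl
  constructor
  · intro h
    have h' : ∀ e : Term hSig ℕ × Term hSig ℕ, e ∈ (heap n).th.ids →
      ∀ v : ℕ → G, e.1.eval s v = e.2.eval s v := h
    refine ⟨fun x y => ?_, fun x y => ?_, fun x y z => ?_, fun x y z u w => ?_, fun x y => ?_⟩
    · have := h' _ ((hmem (_, _)).2 (by unfold hIds; left)) (fun k => if k = 0 then x else y)
      simpa [eval_hP, Term.eval] using this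
    · have := h' _ ((hmem (_, _)).2 (by unfold hIds; right; left))
        (fun k => if k = 0 then x else y)
      simpa [eval_hP, Term.eval] using this
    · have := h' _ ((hmem (_, _)).2 (by unfold hIds; right; right; left))
        (fun k => if k = 0 then x else if k = 1 then y else z)
      simpa [eval_hP, Term.eval] using this
    · have := h' _ ((hmem (_, _)).2 (by unfold hIds; right; right; right; left))
        (fun k => if k = 0 then x else if k = 1 then y else if k = 2 then z else
          if k = 3 then u else w)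
      simpa [eval_hP, Term.eval] using this
    · have := h' _ ((hmem (_, _)).2 (by unfold hIds; right; right; right; right; left))
        (fun k => if k = 0 then x else y)
      simpa [eval_hPow, Term.eval] using this
  · rintro ⟨h1, h2, h3, h4, h5⟩
    have h' : ∀ e : Term hSig ℕ × Term hSig ℕ, e ∈ (heap n).th.ids →
      ∀ v : ℕ → G, e.1.eval s v = e.2.eval s v := by
      intro e he v
      rw [hmem] at he
      simp only [hIds, List.mem_cons, List.not_mem_nil, or_false] at he
      rcases he with rfl | rfl | rfl | rfl | rfl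
      · simpa [eval_hP, Term.eval] using h1 _ _
      · simpa [eval_hP, Term.eval] using h2 _ _
      · simpa [eval_hP, Term.eval] using h3 _ _ _
      · simpa [eval_hP, Term.eval] using h4 _ _ _ _ _
      · simpa [eval_hPow, Term.eval] using h5 _ _
    exact h'

/-- Abelian groups of exponent dividing `n` are heaps. -/
theorem heap_of_group {n : ℕ} [CommGroup G] (h1 : ∀ a b c, sP s a b c = a * b⁻¹ * c)
    (h4 : ∀ a : G, a ^ n = 1) : (heap n).th.Models s := by
  rw [heap_iff]
  refine ⟨fun x y => ?_, fun x y => ?_, fun x y z => ?_, fun x y z u w => ?_, fun x y => ?_⟩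
  · rw [h1]; group
  · rw [h1]; group
  · rw [h1, h1, mul_right_comm, mul_right_comm z, mul_comm x z]
  · rw [h1, h1, h1, h1]
    simp only [mul_assoc]
  · have key : ∀ k : ℕ, (fun w => sP s x y w)^[k] y = (x * y⁻¹) ^ k * y := by
      intro k
      induction k with
      | zero => simp
      | succ k ih =>
        rw [Function.iterate_succ_apply', ih, h1, pow_succ']
        simp only [mul_assoc]
    rw [key, h4, one_mul]

end

/-- The variety of `A` satisfies the heap condition. -/
theorem VG_heap (A : Type) [CommGroup A] :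
    (VG A).Satisfies (heap (Monoid.exponent A)) := by
  let p : Term groupSig (Fin 3) :=
    .op GOp.mul (fun i : Fin 2 => if i = 0 then
      .op GOp.mul (fun j : Fin 2 => if j = 0 then .var 0 else
        .op GOp.inv (fun _ : Fin 1 => .var 1)) else .var 2)
  let t : ∀ _ : Fin 1, Term groupSig (Fin 3) := fun _ => p
  refine ⟨t, ?_⟩
  intro e he M m hm v
  refine hm (_, _) ?_ v
  intro w
  have g1 := Term.eval_repl (S := (heap (Monoid.exponent A)).sig) t (groupStr A) w e.1
  have g2 := Term.eval_repl (S := (heap (Monoid.exponent A)).sig) t (groupStr A) w e.2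
  have key : (heap (Monoid.exponent A)).th.Models
      (fun f a => (t f).eval (groupStr A) a : Str hSig A) := by
    apply heap_of_group
    · intro a b c
      show p.eval (groupStr A) (fun i : Fin 3 => if i = 0 then a else if i = 1 then b else c) = _
      rfl
    · intro a
      exact Monoid.pow_exponent_eq_one a
  exact g1.trans ((key e he w).trans g2.symm)

/-- A constant symbol of arity `k0`. -/
def cSig (k0 : ℕ) : Sig := ⟨Fin 1, fun _ => k0⟩

def cE {k0 : ℕ} {V : Type} (ρ : Fin k0 → V) : Term (cSig k0) V :=
  .op (0 : Fin 1) (fun i : Fin k0 => .var (ρ i))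

/-- There is a constant symbol of arity `k0`. -/
def cst (k0 : ℕ) : Cond where
  k := 1
  ar := fun _ => k0
  ids := [(cE (fun i => i), cE (fun i => k0 + i))]

theorem cst_iff {k0 : ℕ} {G : Type} {s : Str (cSig k0) G} : (cst k0).th.Models s ↔
    ∀ v : ℕ → G, s (0 : Fin 1) (fun i : Fin k0 => v i) =
      s (0 : Fin 1) (fun i : Fin k0 => v (k0 + i)) := by
  have hmem : ∀ e : Term (cSig k0) ℕ × Term (cSig k0) ℕ, e ∈ (cst k0).th.ids ↔
      e ∈ [((cE (fun i => i), cE (fun i => k0 + i)) : Term (cSig k0) ℕ × Term (cSig k0) ℕ)] :=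
    fun e => Iff.rfl
  constructor
  · intro h
    have h' : ∀ e : Term (cSig k0) ℕ × Term (cSig k0) ℕ, e ∈ (cst k0).th.ids →
      ∀ v : ℕ → G, e.1.eval s v = e.2.eval s v := h
    intro v
    exact h' _ ((hmem (_, _)).2 (by left)) v
  · intro h
    have h' : ∀ e : Term (cSig k0) ℕ × Term (cSig k0) ℕ, e ∈ (cst k0).th.ids →
      ∀ v : ℕ → G, e.1.eval s v = e.2.eval s v := by
      intro e he v
      rw [hmem] at he
      simp only [List.mem_cons, List.not_mem_nil, or_false] at he
      subst he
      exact h v
    exact h'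

theorem hasConst_cst (k0 : ℕ) : HasConst k0 (cst k0).th := by
  refine ⟨.op (0 : Fin 1) (fun i : Fin k0 => .var i), ?_⟩
  intro M m hm v w
  show m (0 : Fin 1) v = m (0 : Fin 1) w
  by_cases hk : k0 = 0
  · subst hk
    have : v = w := by
      funext i
      exact i.elim0
    rw [this]
  · let x0 : M := v ⟨0, Nat.pos_of_ne_zero hk⟩
    have := (cst_iff (s := m)).1 hm (fun k => if h : k < k0 then v ⟨k, h⟩ else
      if h' : k - k0 < k0 then w ⟨k - k0, h'⟩ else x0)
    have e1 : (fun i : Fin k0 => (fun k => if h : k < k0 then v ⟨k, h⟩ else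
      if h' : k - k0 < k0 then w ⟨k - k0, h'⟩ else x0) (i : ℕ)) = v := by
      funext i
      simp
    have e2 : (fun i : Fin k0 => (fun k => if h : k < k0 then v ⟨k, h⟩ else
      if h' : k - k0 < k0 then w ⟨k - k0, h'⟩ else x0) (k0 + (i : ℕ))) = w := by
      funext i
      simp
    rw [e1, e2] at this
    exact this

theorem satisfies_cst {k0 : ℕ} {V : Theory} : V.Satisfies (cst k0) ↔ HasConst k0 V := by
  constructor
  · intro h
    exact (hasConst_cst k0).mono (satisfies_iff.1 h)
  · rintro ⟨e, he⟩
    rw [satisfies_iff]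
    refine ⟨fun _ => e, ?_⟩
    intro M m hm
    show (cst k0).th.Models (fun f a => e.eval m a : Str (cSig k0) M)
    rw [cst_iff]
    intro v
    exact he M m hm _ _

/-- A heap with a constant is a group. -/
theorem alpha_of_heap_const {k0 n : ℕ} {V : Theory} (hh : V.Satisfies (heap n))
    (hc : HasConst k0 V) : V.Satisfies (alpha k0 n) := by
  obtain ⟨e, he⟩ := hc
  obtain ⟨q, hq⟩ := satisfies_iff.1 hh
  let p : Term V.sig (Fin 3) := q (0 : Fin 1)
  let C : ∀ W : Type, W → Term V.sig W := fun W w => e.subst (fun _ => .var w)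
  let tm : Term V.sig (Fin 2) := p.subst
    (fun j : Fin 3 => if j = 0 then .var 0 else if j = 1 then C _ 0 else .var 1)
  let ti : Term V.sig (Fin 1) := p.subst
    (fun j : Fin 3 => if j = 0 then C _ 0 else if j = 1 then .var 0 else C _ 0)
  let t : ∀ i : Fin 3, Term V.sig (Fin ((![2, 1, k0] : Fin 3 → ℕ) i)) :=
    Fin.cons (α := fun i : Fin 3 => Term V.sig (Fin ((![2, 1, k0] : Fin 3 → ℕ) i))) tm
      (Fin.cons (α := fun i : Fin 2 => Term V.sig (Fin ((![2, 1, k0] : Fin 3 → ℕ) i.succ))) ti
        (Fin.cons (α := fun i : Fin 1 => Term V.sig (Fin ((![2, 1, k0] : Fin 3 → ℕ)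
            i.succ.succ))) e (fun i => i.elim0)))
  rw [satisfies_iff]
  refine ⟨t, ?_⟩
  intro M m hm
  show (alpha k0 n).th.Models (fun f a => (t f).eval m a : Str (alphaSig k0) M)
  by_cases hM : Nonempty M
  · obtain ⟨x0⟩ := hM
    let c : M := e.eval m (fun _ => x0)
    have hc : ∀ v, e.eval m v = c := fun v => he M m hm v _
    have hC : ∀ (W : Type) (w : W) (a : W → M), (C W w).eval m a = c := by
      intro W w a
      show (e.subst (fun _ => .var w)).eval m a = c
      rw [Term.eval_subst]
      exact hc _
    obtain ⟨h1, h2, h3, h4, h5⟩ := (heap_iff (n := n)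
      (s := (fun f a => (q f).eval m a : Str hSig M))).1 (hq M m hm)
    set P : M → M → M → M := sP (fun f a => (q f).eval m a : Str hSig M) with hP
    have hM : ∀ a b : M, sM (fun f a => (t f).eval m a : Str (alphaSig k0) M) a b = P a c b := by
      intro a b
      show tm.eval m (fun i : Fin 2 => if i = 0 then a else b) =
        p.eval m (fun i : Fin 3 => if i = 0 then a else if i = 1 then c else b)
      simp only [tm, Term.eval_subst]
      congr 1
      funext j
      split_ifs
      · rfl
      · exact hC _ _ _
      · rfl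
    have hI : ∀ a : M, sI (fun f a => (t f).eval m a : Str (alphaSig k0) M) a = P c a c := by
      intro a
      show ti.eval m (fun i : Fin 1 => a) =
        p.eval m (fun i : Fin 3 => if i = 0 then c else if i = 1 then a else c)
      simp only [ti, Term.eval_subst]
      congr 1
      funext j
      split_ifs
      · exact hC _ _ _
      · rfl
      · exact hC _ _ _
    have hE : ∀ v, sE (fun f a => (t f).eval m a : Str (alphaSig k0) M) v = c := fun v => hc v
    rw [alpha_iff]
    refine ⟨fun x y z => ?_, fun x y => ?_, fun v => ?_, fun v => ?_, fun v => ?_, fun v => ?_⟩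
    · rw [hM, hM, hM, hM, h4]
    · rw [hM, hM, h3]
    · rw [hE, hM, h2]
    · rw [hM, hI, hE, h4, h2, h1]
    · rw [eval_aPow_of hE, hE]
      have : (fun w => sM (fun f a => (t f).eval m a : Str (alphaSig k0) M) (v 0) w) =
          fun w => P (v 0) c w := by
        funext w
        exact hM _ _
      rw [this]
      exact h5 _ _
    · rw [hE, hE]
  · intro e' _ v
    exact absurd ⟨v 0⟩ hM

/-- The existence of a constant does not imply the heap condition. -/
theorem not_cst_heap (k0 n : ℕ) : ¬ (cst k0).th.Satisfies (heap n) := by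
  intro h
  obtain ⟨q, hq⟩ := satisfies_iff.1 h
  let s : Str (cSig k0) Bool := fun _ _ => true
  have hs : (cst k0).th.Models s := by
    rw [cst_iff]
    intro v
    rfl
  obtain ⟨h1, h2, -⟩ := (heap_iff (n := n)
      (s := (fun f a => (q f).eval s a : Str hSig Bool))).1 (hq Bool s hs)
  have key : ∀ p : Term (cSig k0) (Fin 3),
      (∀ x y : Bool, p.eval s (fun i : Fin 3 => if i = 0 then x else if i = 1 then y else y) = x) →
      (∀ x y : Bool, p.eval s (fun i : Fin 3 => if i = 0 then x else if i = 1 then x else y) = y) →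
      False := by
    intro p g1 g2
    cases p with
    | var j =>
      change Fin 3 at j
      fin_cases j
      · exact absurd (g2 false true) (by simp [Term.eval])
      · exact absurd (g1 false true) (by simp [Term.eval])
      · exact absurd (g1 false true) (by simp [Term.eval])
    | op f a => exact absurd (g1 false true) (by simp [Term.eval, s])
  exact key (q (0 : Fin 1)) h1 h2

/-- The heap condition does not imply the existence of a constant. -/
theorem not_heap_cst {k0 n : ℕ} (h : k0 = 0 ∨ n ≠ 1) : ¬ HasConst k0 (heap n).th := by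
  rintro ⟨e, he⟩
  let s : Str hSig (ZMod n) := fun _ (a : Fin 3 → ZMod n) => a 0 - a 1 + a 2
  have hs : (heap n).th.Models s := by
    have hP : ∀ a b c, sP s a b c = a - b + c := fun a b c => rfl
    rw [heap_iff]
    refine ⟨fun x y => ?_, fun x y => ?_, fun x y z => ?_, fun x y z u w => ?_, fun x y => ?_⟩
    · rw [hP]; ring
    · rw [hP]; ring
    · rw [hP, hP]; ring
    · rw [hP, hP, hP, hP]; ring
    · have key : ∀ k : ℕ, (fun w => sP s x y w)^[k] y = k * (x - y) + y := by
        intro k
        induction k with
        | zero => simp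
        | succ k ih =>
          rw [Function.iterate_succ_apply', ih, hP]
          push_cast
          ring
      rw [key]
      simp
  have hid : ∀ t : Term hSig (Fin k0), ∀ a : ZMod n, t.eval s (fun _ => a) = a := by
    intro t a
    induction t with
    | var x => rfl
    | op f b ih =>
      show (b (0 : Fin 3)).eval s _ - (b (1 : Fin 3)).eval s _ + (b (2 : Fin 3)).eval s _ = a
      rw [ih (0 : Fin 3), ih (1 : Fin 3), ih (2 : Fin 3)]
      ring
  rcases h with rfl | h
  · have hempty : ∀ _ : Term hSig (Fin 0), False := by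
      intro t
      induction t with
      | var x => exact x.elim0
      | op f b ih => exact ih (0 : Fin 3)
    exact hempty e
  · have h0 := hid e 0
    have h1 := hid e 1
    have h2 := he (ZMod n) s hs (fun _ => 0) (fun _ => 1)
    have h3 : (0 : ZMod n) = 1 := by rw [← h0, ← h1]; exact h2
    have h4 : Subsingleton (ZMod n) := subsingleton_of_zero_eq_one h3
    exact h (ZMod.subsingleton_iff.1 h4)

end Pool.Agent.Y806.DM
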