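import Pool.Agent.Y806.DM.Heap

set_option autoImplicit false

/-! The lengths of the bases of the SC-theory of a variety of abelian groups. -/

namespace Pool.Agent.Y806.DM

open Pool.Agent.Helper470.DimT

/-- The cardinalities of the bases of the SC-theory of `V`. -/
def lengths (a : Cond → Prop) (V : Theory) : Set ℕ∞ :=
  {k | ∃ B : Set Cond, IsBasis B (SC a V) ∧ B.encard = k}

theorem sat_self (σ : Cond) : σ.th.Satisfies σ := satisfies_iff.2 (Interp.refl _)

section
variable {k0 : ℕ} {A : Type} [CommGroup A]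

theorem heap_mem (hk : k0 ≤ 1) : heap (Monoid.exponent A) ∈ SC (adm k0) (VG A) := by
  refine ⟨fun i => ?_, VG_heap A⟩
  show k0 ≤ 3
  omega

theorem cst_mem : cst k0 ∈ SC (adm k0) (VG A) :=
  ⟨fun _ => le_rfl, satisfies_cst.2 (const_of_alpha (VG_alpha k0 A))⟩

theorem alpha_mem (hk : k0 ≤ 1) : alpha k0 (Monoid.exponent A) ∈ SC (adm k0) (VG A) :=
  ⟨alpha_adm hk _, VG_alpha k0 A⟩

theorem isBasis_pair (hk : k0 ≤ 1) (h : k0 = 0 ∨ Monoid.exponent A ≠ 1) :
    IsBasis {heap (Monoid.exponent A), cst k0} (SC (adm k0) (VG A)) ∧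
      ({heap (Monoid.exponent A), cst k0} : Set Cond).encard = 2 := by
  have hne : heap (Monoid.exponent A) ≠ cst k0 := by
    intro he
    have h1 := sat_self (cst k0)
    have h2 := not_cst_heap k0 (Monoid.exponent A)
    rw [he] at h2
    exact h2 h1
  refine ⟨⟨?_, ?_, ?_⟩, Set.encard_pair hne⟩
  · rintro σ (rfl | rfl)
    · exact heap_mem hk
    · exact cst_mem
  · intro τ hτ
    refine ⟨_, subset_rfl, by simp, ?_⟩
    intro V hV
    exact alpha_implies (alpha_of_heap_const (hV _ (by simp)) (satisfies_cst.1 (hV _ (by simp))))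
      hτ.1 hτ.2
  · rintro σ (rfl | rfl) ⟨Γ, hΓ, -, himp⟩
    · refine not_cst_heap k0 (Monoid.exponent A) (himp _ fun τ hτ => ?_)
      have h1 := hΓ hτ
      rcases h1.1 with h2 | h2
      · exact absurd h2 h1.2
      · rw [Set.mem_singleton_iff.1 h2]
        exact sat_self _
    · refine not_heap_cst h (satisfies_cst.1 (himp _ fun τ hτ => ?_))
      have h1 := hΓ hτ
      rcases h1.1 with h2 | h2
      · rw [h2]
        exact sat_self _
      · exact absurd h2 h1.2

/-- A condition which implies all is a basis. -/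
theorem isBasis_single {σ : Cond} (hσ : σ ∈ SC (adm k0) (VG A))
    (h : ∀ V : Theory, V.Satisfies σ → V.Satisfies (alpha k0 (Monoid.exponent A))) :
    IsBasis {σ} (SC (adm k0) (VG A)) := by
  refine ⟨?_, ?_, ?_⟩
  · rintro τ rfl
    exact hσ
  · intro τ hτ
    refine ⟨_, subset_rfl, Set.finite_singleton _, ?_⟩
    intro V hV
    exact alpha_implies (h V (hV _ rfl)) hτ.1 hτ.2
  · rintro τ rfl ⟨Γ, hΓ, -, himp⟩
    refine not_satisfies_alpha k0 (Monoid.exponent A) (h _ (himp _ fun ρ hρ => ?_))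
    exact absurd (hΓ hρ).1 (hΓ hρ).2

/-- Two conditions which imply all contain a basis. -/
theorem exists_basis {B : Set Cond} (hB : B ⊆ SC (adm k0) (VG A)) {σ τ : Cond} (hσ : σ ∈ B)
    (hτ : τ ∈ B) (h : ∀ V : Theory, V.Satisfies σ → V.Satisfies τ →
      V.Satisfies (alpha k0 (Monoid.exponent A))) :
    ∃ B' ⊆ B, IsBasis B' (SC (adm k0) (VG A)) ∧ B'.encard ≤ 2 := by
  by_cases h1 : ∀ V : Theory, V.Satisfies σ → V.Satisfies (alpha k0 (Monoid.exponent A))
  · refine ⟨{σ}, by simpa using hσ, isBasis_single (hB hσ) h1, ?_⟩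
    rw [Set.encard_singleton]
    exact one_le_two
  by_cases h2 : ∀ V : Theory, V.Satisfies τ → V.Satisfies (alpha k0 (Monoid.exponent A))
  · refine ⟨{τ}, by simpa using hτ, isBasis_single (hB hτ) h2, ?_⟩
    rw [Set.encard_singleton]
    exact one_le_two
  refine ⟨{σ, τ}, ?_, ⟨?_, ?_, ?_⟩, ?_⟩
  · rintro ρ (rfl | rfl)
    · exact hσ
    · exact hτ
  · rintro ρ (rfl | rfl)
    · exact hB hσ
    · exact hB hτ
  · intro ρ hρ
    refine ⟨_, subset_rfl, by simp, ?_⟩
    intro V hV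
    exact alpha_implies (h V (hV _ (by simp)) (hV _ (by simp))) hρ.1 hρ.2
  · rintro ρ (hρ | hρ) ⟨Γ, hΓ, -, himp⟩
    · apply h2
      intro V hV
      refine h V ?_ hV
      rw [← hρ]
      refine himp V fun ξ hξ => ?_
      have h3 := hΓ hξ
      rcases h3.1 with h4 | h4
      · exact absurd (h4.trans hρ.symm) h3.2
      · rw [Set.mem_singleton_iff.1 h4]
        exact hV
    · apply h1
      intro V hV
      refine h V hV ?_
      rw [← Set.mem_singleton_iff.1 hρ]
      refine himp V fun ξ hξ => ?_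
      have h3 := hΓ hξ
      rcases h3.1 with h4 | h4
      · rw [h4]
        exact hV
      · exact absurd ((Set.mem_singleton_iff.1 h4).trans (Set.mem_singleton_iff.1 hρ).symm) h3.2
  · exact (Set.encard_insert_le _ _).trans (by rw [Set.encard_singleton]; exact one_add_one_eq_two.le)

/-- A basis is a minimal generating set. -/
theorem basis_eq {B B' C : Set Cond} (hB : IsBasis B C) (hs : B' ⊆ B) (hg : Generates B' C) :
    B = B' := by
  refine Set.Subset.antisymm (fun σ hσ => ?_) hs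
  by_contra hne
  obtain ⟨Γ, h1, h2, h3⟩ := hg σ (hB.1 hσ)
  refine hB.2.2 σ hσ ⟨Γ, fun τ hτ => ⟨hs (h1 hτ), fun h => ?_⟩, h2, h3⟩
  rw [Set.mem_singleton_iff.1 h] at hτ
  exact hne (h1 hτ)

theorem basis_ne {B : Set Cond} (hk : k0 ≤ 1) (hB : IsBasis B (SC (adm k0) (VG A))) :
    B.encard ≠ 0 := by
  intro h
  rw [Set.encard_eq_zero] at h
  subst h
  obtain ⟨Γ, h1, -, h3⟩ := hB.2.1 _ (alpha_mem hk)
  exact not_satisfies_alpha k0 (Monoid.exponent A) (h3 _ fun τ hτ => absurd (h1 hτ) (by simp))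

/-- A finite family of conditions as a join. -/
theorem gen_join (hk : k0 ≤ 1) {B : Set Cond} (hgen : Generates B (SC (adm k0) (VG A))) :
    ∃ (k : ℕ) (c : Fin k → Cond), (∀ j, c j ∈ B) ∧
      (join fun j => (c j).th).Satisfies (alpha k0 (Monoid.exponent A)) := by
  obtain ⟨Γ, hΓ, hfin, himp⟩ := hgen (alpha k0 (Monoid.exponent A)) (alpha_mem hk)
  have : Finite Γ := hfin
  obtain ⟨k, ⟨e⟩⟩ := Finite.exists_equiv_fin Γ
  refine ⟨k, fun j => (e.symm j).1, fun j => hΓ (e.symm j).2, ?_⟩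
  apply himp
  intro σ hσ
  rw [satisfies_iff]
  have := interp_join (fun j => ((e.symm j).1 : Cond).th) (e ⟨σ, hσ⟩)
  simp only [Equiv.symm_apply_apply] at this
  exact this

theorem papr (n : ℕ) (hn : 2 ≤ n) : PAPrime n := fun T hc hl h => pa_prime T hn hc hl h

theorem cpr (hk : k0 ≤ 1) : ConstPrime k0 := by
  rcases Nat.le_one_iff_eq_zero_or_eq_one.1 hk with rfl | rfl
  · exact constPrime_zero
  · exact constPrime_one

/-- Every generating set contains two conditions which imply all. -/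
theorem gen_two (hk : k0 ≤ 1) (hn0 : Monoid.exponent A ≠ 0) {B : Set Cond}
    (hsub : B ⊆ SC (adm k0) (VG A)) (hgen : Generates B (SC (adm k0) (VG A))) :
    ∃ σ ∈ B, ∃ τ ∈ B, ∀ V : Theory, V.Satisfies σ → V.Satisfies τ →
      V.Satisfies (alpha k0 (Monoid.exponent A)) := by
  obtain ⟨k, c, hcB, hJ⟩ := gen_join hk hgen
  have hTc : ∀ i, Countable ((c i).th).sig.Op := fun i =>
    (inferInstance : Countable (Fin (c i).k))
  obtain ⟨j1, hj1⟩ := cpr hk k (fun j => (c j).th) (fun i f => (hsub (hcB i)).1 f) hTc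
    (const_of_alpha hJ)
  have h2 : ∃ j2, ∀ V : Theory, Interp (c j2).th V → HasConst k0 V →
      V.Satisfies (alpha k0 (Monoid.exponent A)) := by
    by_cases h1 : Monoid.exponent A = 1
    · rw [h1] at hJ ⊢
      obtain ⟨j2, hj2⟩ := trivPrime k (fun j => (c j).th) hTc (triv_of_alpha hJ)
      exact ⟨j2, fun V hV hc => alpha_of_const_triv hc (hj2.mono hV)⟩
    · have hn : 2 ≤ Monoid.exponent A := by omega
      obtain ⟨j2, hj2⟩ := pa_prime_fin hn (papr _ hn) k (fun j => (c j).th) hTc (fun i =>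
        HasLin.mono (satisfies_iff.1 (hsub (hcB i)).2) (hasLin_VG A)) (pa_of_alpha hJ)
      exact ⟨j2, fun V hV hc => alpha_of_const_pa hn hc (hj2.mono hV)⟩
  obtain ⟨j2, hj2⟩ := h2
  exact ⟨c j1, hcB j1, c j2, hcB j2, fun V h3 h4 =>
    hj2 V (satisfies_iff.1 h4) (hj1.mono (satisfies_iff.1 h3))⟩

/-- For the trivial group and symbols of positive arity one condition is enough. -/
theorem gen_one (hn : Monoid.exponent A = 1) {B : Set Cond}
    (hgen : Generates B (SC (adm 1) (VG A))) :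
    ∃ σ ∈ B, ∀ V : Theory, V.Satisfies σ → V.Satisfies (alpha 1 (Monoid.exponent A)) := by
  obtain ⟨k, c, hcB, hJ⟩ := gen_join le_rfl hgen
  have hTc : ∀ i, Countable ((c i).th).sig.Op := fun i =>
    (inferInstance : Countable (Fin (c i).k))
  rw [hn] at hJ ⊢
  obtain ⟨j, hj⟩ := trivPrime k (fun j => (c j).th) hTc (triv_of_alpha hJ)
  refine ⟨c j, hcB j, fun V h => ?_⟩
  have hV : Triv V := hj.mono (satisfies_iff.1 h)
  refine alpha_of_const_triv ⟨.var 0, fun M m hm v w => ?_⟩ hV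
  have := hV M m hm
  exact Subsingleton.elim _ _

theorem basis_le (hk : k0 ≤ 1) (hn0 : Monoid.exponent A ≠ 0) {B : Set Cond}
    (hB : IsBasis B (SC (adm k0) (VG A))) : B.encard ≤ 2 := by
  obtain ⟨σ, hσ, τ, hτ, h⟩ := gen_two hk hn0 hB.1 hB.2.1
  obtain ⟨B', h1, h2, h3⟩ := exists_basis hB.1 hσ hτ h
  rw [basis_eq hB h1 h2.2.1]
  exact h3

theorem one_mem_lengths (hk : k0 ≤ 1) : (1 : ℕ∞) ∈ lengths (adm k0) (VG A) :=
  ⟨_, isBasis_alpha hk A, Set.encard_singleton _⟩

theorem two_mem_lengths (hk : k0 ≤ 1) (h : k0 = 0 ∨ Monoid.exponent A ≠ 1) :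
    (2 : ℕ∞) ∈ lengths (adm k0) (VG A) :=
  ⟨_, (isBasis_pair hk h).1, (isBasis_pair hk h).2⟩

theorem lengths_eq (hk : k0 ≤ 1) (hn0 : Monoid.exponent A ≠ 0)
    (h : k0 = 0 ∨ Monoid.exponent A ≠ 1) : lengths (adm k0) (VG A) = {1, 2} := by
  refine Set.Subset.antisymm ?_ ?_
  · rintro l ⟨B, hB, rfl⟩
    have h1 := basis_le hk hn0 hB
    have h2 := basis_ne hk hB
    obtain ⟨j, hj⟩ := ENat.ne_top_iff_exists.1 (ne_top_of_le_ne_top (by decide) h1)
    rw [← hj] at h1 h2 ⊢
    have h3 : j ≤ 2 := by exact_mod_cast h1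
    have h4 : j ≠ 0 := by exact_mod_cast h2
    have h5 : j = 1 ∨ j = 2 := by omega
    rcases h5 with rfl | rfl
    · left; rfl
    · right; rfl
  · rintro l (rfl | rfl)
    · exact one_mem_lengths hk
    · exact two_mem_lengths hk h

theorem dim_eq (hk : k0 ≤ 1) (hn0 : Monoid.exponent A ≠ 0)
    (h : k0 = 0 ∨ Monoid.exponent A ≠ 1) : dim (adm k0) (VG A) = 2 := by
  refine le_antisymm (iSup₂_le fun B hB => basis_le hk hn0 hB) ?_
  obtain ⟨h1, h2⟩ := isBasis_pair (A := A) hk h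
  rw [← h2]
  exact le_iSup₂ (f := fun (B : Set Cond) (_ : B ∈ {B : Set Cond | IsBasis B (SC (adm k0) (VG A))})
    => B.encard) _ h1

theorem basis_one (hn : Monoid.exponent A = 1) {B : Set Cond}
    (hB : IsBasis B (SC (adm 1) (VG A))) : B.encard = 1 := by
  obtain ⟨σ, hσ, h⟩ := gen_one hn hB.2.1
  rw [basis_eq hB (B' := {σ}) (by simpa using hσ) (isBasis_single (hB.1 hσ) h).2.1]
  exact Set.encard_singleton _

theorem lengths_triv (hn : Monoid.exponent A = 1) : lengths (adm 1) (VG A) = {1} := by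
  refine Set.Subset.antisymm ?_ ?_
  · rintro l ⟨B, hB, rfl⟩
    exact basis_one hn hB
  · rintro l rfl
    exact one_mem_lengths le_rfl

theorem dim_triv (hn : Monoid.exponent A = 1) : dim (adm 1) (VG A) = 1 := by
  refine le_antisymm (iSup₂_le fun B hB => (basis_one hn hB).le) ?_
  have h1 := isBasis_alpha (k0 := 1) le_rfl A
  rw [← Set.encard_singleton (alpha 1 (Monoid.exponent A))]
  exact le_iSup₂ (f := fun (B : Set Cond) (_ : B ∈ {B : Set Cond | IsBasis B (SC (adm 1) (VG A))})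
    => B.encard) _ h1

theorem gen_basis (hk : k0 ≤ 1) (hn0 : Monoid.exponent A ≠ 0) (B : Set Cond)
    (hB : B ⊆ SC (adm k0) (VG A)) (hg : Generates B (SC (adm k0) (VG A))) :
    ∃ B' ⊆ B, IsBasis B' (SC (adm k0) (VG A)) ∧ B'.encard ≤ 2 := by
  obtain ⟨σ, hσ, τ, hτ, h⟩ := gen_two hk hn0 hB hg
  exact exists_basis hB hσ hτ h

end

end Pool.Agent.Y806.DM
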